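import Mathlib

/-!
Edits of words.
-/

set_option autoImplicit false

namespace Pool.Agent.Lib.LinSpace.Var

variable {B : Type}

/-- `v` arises from `u` by inserting, deleting or replacing at most one letter. -/
def Edit (u v : List B) : Prop :=
  ∃ x a b y : List B, u = x ++ a ++ y ∧ v = x ++ b ++ y ∧ a.length ≤ 1 ∧ b.length ≤ 1

/-- `v` arises from `u` by `c` edits. -/
inductive Edits : ℕ → List B → List B → Prop
  | refl (u : List B) : Edits 0 u u
  | step {c : ℕ} {u v w : List B} : Edits c u v → Edit v w → Edits (c + 1) u w

end Pool.Agent.Lib.LinSpace.Var
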