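import Pool.Agent.Lib.LinSpace.Var.Script
import Pool.Agent.Lib.LinSpace.Sim

/-!
Nondeterministic processes on words whose single steps are decidable in deterministic linear
space, and whose total variation is linear, can be made deterministic in linear space.
-/

set_option autoImplicit false
set_option linter.unusedSimpArgs false
set_option linter.unusedSectionVars false

namespace Pool.Agent.Lib.LinSpace.Var

variable {B : Type} {R : List B → List B → Prop}

/-! ### Paths -/

/-- There is a path of `R`-steps of total cost `k` from `u` to `w`. -/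
inductive Pth (R : List B → List B → Prop) : ℕ → List B → List B → Prop
  | refl (v : List B) : Pth R 0 v v
  | step {c k : ℕ} {u v w : List B} : Edits c u v → R u v → Pth R k v w → Pth R (c + k) u w

theorem Pth.trans {k l : ℕ} {u v w : List B} (h : Pth R k u v) (h' : Pth R l v w) :
    Pth R (k + l) u w := by
  induction h with
  | refl v => simpa using h'
  | step e r _ ih =>
    rw [Nat.add_assoc]
    exact .step e r (ih h')

theorem Pth.edits {k : ℕ} {u v : List B} (h : Pth R k u v) : Edits k u v := by
  induction h with
  | refl v => exact .refl v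
  | step e _ _ ih => exact e.trans ih

theorem Pth.split {k : ℕ} {v e : List B} (h : Pth R k v e) : ∀ n, ∃ u u' k1 c k2,
    Pth R k1 v u ∧ (u = u' ∧ c = 0 ∨ R u u' ∧ Edits c u u') ∧ Pth R k2 u' e ∧
      k1 + c + k2 = k ∧ k1 ≤ n ∧ k2 ≤ k - (n + 1) := by
  induction h with
  | refl v => exact fun n => ⟨v, v, 0, 0, 0, .refl v, Or.inl ⟨rfl, rfl⟩, .refl v, by omega⟩
  | @step c k u v w e r h ih =>
    intro n
    by_cases hc : c ≤ n
    · obtain ⟨x, x', k1, c', k2, h1, h2, h3, h4, h5, h6⟩ := ih (n - c)
      exact ⟨x, x', c + k1, c', k2, .step e r h1, h2, h3, by omega, by omega, by omega⟩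
    · exact ⟨u, v, 0, c, k, .refl u, Or.inr ⟨r, e⟩, h, by omega, by omega, by omega⟩

/-! ### The algorithm -/

/-- Instances: source, target, whether the target is the final set; the parameter; the budget;
a bound for the lengths. -/
abbrev Ins (B : Type) :=
  ((List B × List B) × Bool) × (List Bool × (List (List Bool) × List Bool))

/-- Guesses: the scripts for the two middle words, the budgets for the two halves, the new
bound for the lengths. -/
abbrev Gue (B : Type) :=
  (Script B × Script B) × (List (List Bool) × (List (List Bool) × List Bool))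

/-- The measure. -/
def ms (x : Ins B) : List Bool := (x.2.2.1.flatMap fun i => true :: i) ++ x.2.2.2

/-- Instances without budget. -/
def base (x : Ins B) : Bool := x.2.2.1.isEmpty

open Classical in
/-- The value of an instance without budget. -/
noncomputable def bval (Db : List B → Bool) (x : Ins B) : Bool :=
  if x.1.2 then Db x.1.1.1 else decide (x.1.1.1 = x.1.1.2)

variable [Nonempty B]

/-- The first middle word. -/
noncomputable def mu (p : Ins B × Gue B) : List B := dec p.2.1.1 p.1.1.1.1

/-- The second middle word. -/
noncomputable def mu' (p : Ins B × Gue B) : List B := dec p.2.1.2 (mu p)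

/-- The test. -/
noncomputable def chk (Rb : List B × List B → Bool) (p : Ins B × Gue B) : Bool :=
  (decide ((rep 2 p.2.2.1).length ≤ p.1.2.2.1.length) &&
    decide ((rep 2 p.2.2.2.1).length ≤ p.1.2.2.1.length)) &&
  (decide (((p.2.2.1.map fun _ => false) ++ ((p.2.1.2.map fun _ => false) ++
    (p.2.2.2.1.map fun _ => false))).length ≤ p.1.2.2.1.length) &&
  (p.2.1.2.isEmpty || Rb (mu p, mu' p)))

/-- The subinstances. -/
noncomputable def ch (p : (Ins B × Gue B) × Bool) : Ins B :=
  if p.2 then (((mu' p.1, p.1.1.1.1.2), p.1.1.1.2), (true :: p.1.1.2.1,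
    (p.1.2.2.2.1, p.1.2.2.2.2)))
  else (((p.1.1.1.1.1, mu p.1), false), (true :: p.1.1.2.1, (p.1.2.2.1, p.1.2.2.2.2)))

theorem ms_length (x : Ins B) :
    (ms x).length = (x.2.2.1.map fun i => i.length + 1).sum + x.2.2.2.length := by
  rw [ms, List.length_append, List.length_flatMap]
  simp

/-! ### Soundness -/

/-- The meaning of the target. -/
def Tg (Db : List B → Bool) (x : Ins B) (e : List B) : Prop :=
  if x.1.2 then Db e = true else e = x.1.1.2

theorem sound [Finite B] [Enc B] {Rb : List B × List B → Bool} {Db : List B → Bool}
    (hR : ∀ u v, Rb (u, v) = true → R u v) {C Bd : ℕ} {x : Ins B}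
    (h : Rec C base (bval Db) ms (chk Rb) ch Bd x) :
    ∃ k ≤ x.2.2.1.length, ∃ e, Pth R k x.1.1.1 e ∧ Tg Db x e := by
  induction h with
  | @base x h1 h2 =>
    refine ⟨0, by omega, x.1.1.1, .refl _, ?_⟩
    unfold bval at h2
    unfold Tg
    split at h2
    next h => rw [if_pos h]; exact h2
    next h => rw [if_neg h]; simpa using h2
  | @node x j h1 _ _ h4 _ ih =>
    set y := gu (Gue B) (bits (C * (ms x).length + C + 1) j) with hy
    obtain ⟨k1, g1, e1, p1, t1⟩ := ih false
    obtain ⟨k2, g2, e2, p2, t2⟩ := ih true
    have hc := h4.1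
    simp only [chk, Bool.and_eq_true, decide_eq_true_eq, rep_length, List.length_append,
      List.length_map, Bool.or_eq_true, List.isEmpty_iff] at hc
    obtain ⟨_, hc3, hc4⟩ := hc
    have t1' : e1 = mu (x, y) := t1
    have p1' : Pth R k1 x.1.1.1 (mu (x, y)) := t1' ▸ p1
    have p2' : Pth R k2 (mu' (x, y)) e2 := p2
    have g1' : k1 ≤ y.2.1.length := g1
    have g2' : k2 ≤ y.2.2.1.length := g2
    have t2' : Tg Db x e2 := t2
    rcases hc4 with hc4 | hc4
    · have e3 : mu' (x, y) = mu (x, y) := by
        show dec y.1.2 _ = _
        rw [hc4, dec_nil]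
      rw [e3] at p2'
      exact ⟨k1 + k2, by omega, e2, p1'.trans p2', t2'⟩
    · obtain ⟨c, hc5, hc6⟩ := dec_edits y.1.2 (mu (x, y))
      exact ⟨k1 + (c + k2), by omega, e2, p1'.trans (.step hc6 (hR _ _ hc4) p2'), t2'⟩

/-! ### Completeness -/

theorem sz_replicate_le {γ : Type} [Enc γ] (a : γ) (n : ℕ) :
    sz (List.replicate n a) ≤ (sz a + 1) * n + 1 := by
  have := sz_list_le (D := sz a) (List.replicate n a) fun b hb => by
    rw [List.eq_of_mem_replicate hb]
  simpa using this

theorem complete [Finite B] [Enc B] {Rb : List B × List B → Bool} {Db : List B → Bool}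
    (hR : ∀ u v, R u v → Rb (u, v) = true) {D M Bd : ℕ} (hD : ∀ b : B, sz b ≤ D)
    (hD' : ∀ b : Option B, sz b ≤ D) (hBd : (2 * D + 16) * M + 17 ≤ Bd) (n : ℕ) :
    ∀ x : Ins B, x.2.2.1.length ≤ n → x.1.1.1.length + x.2.2.1.length ≤ M →
      x.1.1.2.length ≤ M → x.2.1.length + x.2.2.1.length ≤ M →
      (∀ i ∈ x.2.2.1, i.length = x.2.1.length) → 1 ≤ x.2.1.length →
      x.1.1.1.length + x.2.2.1.length < 2 ^ x.2.1.length * (x.2.2.2.length + 1) →
      (ms x).length ≤ M → (∃ k ≤ x.2.2.1.length, ∃ e, Pth R k x.1.1.1 e ∧ Tg Db x e) →
      Rec (2 * D + 40) base (bval Db) ms (chk Rb) ch Bd x := by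
  induction n with
  | zero =>
    intro x hn _ _ _ _ _ _ _ h
    obtain ⟨k, hk, e, h1, h2⟩ := h
    have hV : x.2.2.1 = [] := List.eq_nil_of_length_eq_zero (by omega)
    have hk0 : k = 0 := by omega
    subst hk0
    have h3 := h1.edits.zero
    subst h3
    refine .base (by simp [base, hV]) ?_
    unfold Tg at h2
    unfold bval
    split at h2
    next h => rw [if_pos h]; exact h2
    next h => rw [if_neg h]; simpa using h2
  | succ n ih =>
    intro x hn hM1 hM2 hM3 hA ha hN hms h
    rcases Nat.eq_zero_or_pos x.2.2.1.length with hV | hV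
    · -- as above
      obtain ⟨k, hk, e, h1, h2⟩ := h
      have hV' : x.2.2.1 = [] := List.eq_nil_of_length_eq_zero hV
      have hk0 : k = 0 := by omega
      subst hk0
      have h3 := h1.edits.zero
      subst h3
      refine .base (by simp [base, hV']) ?_
      unfold Tg at h2
      unfold bval
      split at h2
      next h => rw [if_pos h]; exact h2
      next h => rw [if_neg h]; simpa using h2
    · obtain ⟨⟨⟨v, v'⟩, fl⟩, ⟨A, ⟨V, N⟩⟩⟩ := x
      simp only at hn hM1 hM2 hM3 hA ha hN hV
      obtain ⟨k, hk, e, h1, h2⟩ := h
      simp only at hk h1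
      obtain ⟨u, u', k1, c, k2, p1, p2, p3, hsum, hk1, hk2⟩ := h1.split (V.length / 2)
      have hms' : (ms (((v, v'), fl), (A, (V, N)))).length = V.length * (A.length + 1) +
          N.length := by
        rw [ms_length]
        simp only
        congr 1
        have : (V.map fun i => i.length + 1) = List.replicate V.length (A.length + 1) := by
          rw [List.eq_replicate_iff]
          refine ⟨by simp, fun b hb => ?_⟩
          obtain ⟨i, hi, rfl⟩ := List.mem_map.1 hb
          rw [hA i hi]
        rw [this, List.sum_replicate, smul_eq_mul]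
      set a := A.length with hadef
      set μ := V.length * (a + 1) + N.length with hμ
      rw [hms'] at hms
      have e1 := p1.edits
      have hu : u.length ≤ v.length + k1 := e1.length_le
      have hcc : Edits c u u' := by
        rcases p2 with ⟨rfl, rfl⟩ | ⟨_, h⟩
        · exact .refl _
        · exact h
      have hu' : u'.length ≤ u.length + c := hcc.length_le
      obtain ⟨s1, d1, l1, z1⟩ := exists_script hD' e1 a N.length (by omega)
      obtain ⟨s2, d2, l2, z2⟩ := exists_script hD' hcc a N.length (by omega)
      have hpow : 2 ^ (a + 1) * (N.length / 2 + 1) ≥ 2 ^ a * (N.length + 1) := by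
        rw [Nat.pow_succ, Nat.mul_assoc]
        exact Nat.mul_le_mul_left _ (by omega)
      -- the guess
      let P1 : List (List Bool) := List.replicate k1 (List.replicate (a + 1) true)
      let P2 : List (List Bool) := List.replicate k2 (List.replicate (a + 1) true)
      let N' : List Bool := List.replicate (N.length / 2) true
      let y : Gue B := ((s1, s2), (P1, (P2, N')))
      have hy1 : mu ((((v, v'), fl), (A, (V, N))), y) = u := d1
      have hy2 : mu' ((((v, v'), fl), (A, (V, N))), y) = u' := by
        show dec s2 (mu ((((v, v'), fl), (A, (V, N))), y)) = u'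
        rw [hy1]; exact d2
      have hch0 : ch (((((v, v'), fl), (A, (V, N))), y), false) =
          (((v, u), false), (true :: A, (P1, N'))) := by
        rw [ch]
        simp only [Bool.false_eq_true, if_false]
        rw [hy1]
      have hch1 : ch (((((v, v'), fl), (A, (V, N))), y), true) =
          (((u', v'), fl), (true :: A, (P2, N'))) := by
        rw [ch]
        simp only [if_true]
        rw [hy2]
      have hPms : ∀ (w w' : List B) (f : Bool) (l : ℕ),
          (ms (((w, w'), f), (true :: A,
            (List.replicate l (List.replicate (a + 1) true), N')))).length =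
            l * (a + 2) + N.length / 2 := by
        intro w w' f l
        rw [ms_length]
        simp [N']
      have hl1 : 2 * k1 ≤ V.length := by omega
      have hl2 : 2 * k2 ≤ V.length := by omega
      have hmeas : ∀ l, 2 * l ≤ V.length →
          10 * (l * (a + 2) + N.length / 2) ≤ 9 * (V.length * (a + 1) + N.length) := by
        intro l hl
        have h3 : 2 * l * (a + 2) ≤ V.length * (a + 2) := Nat.mul_le_mul_right _ hl
        have h4 : V.length ≤ V.length * a := Nat.le_mul_of_pos_right _ ha
        have e3 : V.length * (a + 2) = V.length * a + 2 * V.length := by ring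
        have e4 : V.length * (a + 1) = V.length * a + V.length := by ring
        have e5 : 2 * l * (a + 2) = 2 * (l * (a + 2)) := by ring
        omega
      have hVa : V.length ≤ V.length * (a + 1) := Nat.le_mul_of_pos_right _ (by omega)
      have hszP : ∀ l, 2 * l ≤ V.length →
          sz (List.replicate l (List.replicate (a + 1) true)) ≤ 6 * μ + 1 := by
        intro l hl
        have h3 := sz_replicate_le (List.replicate (a + 1) true) l
        have h4 := sz_word_bool (List.replicate (a + 1) true)
        rw [List.length_replicate] at h4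
        have h5 : (sz (List.replicate (a + 1) true) + 1) * l ≤ (6 * (a + 1)) * l :=
          Nat.mul_le_mul_right _ (by omega)
        have h6 : (6 * (a + 1)) * l ≤ (6 * (a + 1)) * V.length :=
          Nat.mul_le_mul_left _ (by omega)
        have e6 : (6 * (a + 1)) * V.length = 6 * (V.length * (a + 1)) := by ring
        omega
      have hszN : sz N' ≤ 2 * μ + 1 := by
        have h3 := sz_word_bool N'
        rw [List.length_replicate] at h3
        omega
      have hszs : ∀ (s : Script B) (l : ℕ), l ≤ V.length →
          sz s ≤ 4 * N.length + l * (4 * a + D + 9) + 1 → sz s ≤ (D + 13) * μ + 1 := by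
        intro s l hl hs
        have h3 : l * (4 * a + D + 9) ≤ V.length * ((D + 9) * (a + 1)) := by
          refine Nat.mul_le_mul hl ?_
          nlinarith
        have e6 : V.length * ((D + 9) * (a + 1)) = (D + 9) * (V.length * (a + 1)) := by ring
        have h4 : (D + 9) * (V.length * (a + 1)) ≤ (D + 9) * μ :=
          Nat.mul_le_mul_left _ (by omega)
        have e7 : (D + 13) * μ = (D + 9) * μ + 4 * μ := by ring
        omega
      have q1 := hszs s1 k1 (by omega) z1
      have q2 := hszs s2 c (by omega) z2
      have hszy : sz y ≤ (2 * D + 40) * μ + (2 * D + 40) := by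
        have e8 : sz y = (sz s1 + sz s2 + 1) + (sz P1 + (sz P2 + sz N' + 1) + 1) + 1 := by
          simp only [y, sz_pair]
        rw [e8]
        have r1 : sz P1 ≤ 6 * μ + 1 := hszP k1 hl1
        have r2 : sz P2 ≤ 6 * μ + 1 := hszP k2 hl2
        have e9 : (2 * D + 40) * μ = 2 * ((D + 13) * μ) + 14 * μ := by ring
        omega
      have hszB : ∀ w : List B, w.length ≤ M → sz w ≤ (D + 1) * M + 1 := by
        intro w hw
        have h3 := sz_list_le (D := D) w fun b _ => hD b
        have h4 : (D + 1) * w.length ≤ (D + 1) * M := Nat.mul_le_mul_left _ hw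
        omega
      have hszI : ∀ (w w' : List B) (f : Bool) (l : ℕ), w.length ≤ M → w'.length ≤ M →
          2 * l ≤ V.length → sz ((((w, w'), f), (true :: A,
            (List.replicate l (List.replicate (a + 1) true), N'))) : Ins B) ≤ Bd := by
        intro w w' f l hw hw' hl
        rw [sz_pair, sz_pair, sz_pair, sz_pair, sz_pair]
        have r1 := hszB w hw
        have r2 := hszB w' hw'
        have r3 := sz_bool f
        have r4 := sz_word_bool (true :: A)
        rw [List.length_cons] at r4
        have r5 := hszP l hl
        have e9 : (2 * D + 16) * M = 2 * ((D + 1) * M) + 14 * M := by ring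
        omega
      refine Rec.guess (y := y) ?_ ?_ ⟨?_, ?_⟩ ?_
      · simp only [base, List.isEmpty_eq_false_iff]
        exact List.ne_nil_of_length_pos hV
      · rw [hms']; exact hszy
      · -- the test
        simp only [chk, Bool.and_eq_true, decide_eq_true_eq, rep_length, List.length_append,
          List.length_map, Bool.or_eq_true, List.isEmpty_iff]
        refine ⟨⟨?_, ?_⟩, ?_, ?_⟩
        · simpa [y, P1] using hl1
        · simpa [y, P2] using hl2
        · simp only [y, P1, P2, List.length_replicate]
          omega
        · rcases p2 with ⟨rfl, rfl⟩ | ⟨h3, _⟩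
          · left
            show s2 = []
            exact List.eq_nil_of_length_eq_zero (by omega)
          · right
            rw [hy1, hy2]
            exact hR _ _ h3
      · intro b
        rw [hms']
        cases b with
        | false =>
          rw [hch0]
          exact ⟨hszI v u false k1 (by omega) (by omega) hl1, by
            rw [hPms]; exact hmeas k1 hl1⟩
        | true =>
          rw [hch1]
          exact ⟨hszI u' v' fl k2 (by omega) (by omega) hl2, by
            rw [hPms]; exact hmeas k2 hl2⟩
      · intro b
        cases b with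
        | false =>
          rw [hch0]
          refine ih _ ?_ ?_ ?_ ?_ ?_ ?_ ?_ ?_ ?_
          · simp only [P1, List.length_replicate]; omega
          · simp only [P1, List.length_replicate]; omega
          · simp only; omega
          · simp only [P1, List.length_replicate, List.length_cons]; omega
          · intro i hi
            simp only [P1] at hi
            rw [List.eq_of_mem_replicate hi]
            simp [hadef]
          · simp
          · have h9 : v.length + k1 < 2 ^ (a + 1) * (N.length / 2 + 1) := by omega
            simp only [P1, N', List.length_replicate, List.length_cons]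
            exact h9
          · rw [hPms]
            have := hmeas k1 hl1
            omega
          · refine ⟨k1, by simp [P1], u, p1, ?_⟩
            simp [Tg]
        | true =>
          rw [hch1]
          refine ih _ ?_ ?_ ?_ ?_ ?_ ?_ ?_ ?_ ?_
          · simp only [P2, List.length_replicate]; omega
          · simp only [P2, List.length_replicate]; omega
          · simp only; omega
          · simp only [P2, List.length_replicate, List.length_cons]; omega
          · intro i hi
            simp only [P2] at hi
            rw [List.eq_of_mem_replicate hi]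
            simp [hadef]
          · simp
          · have h9 : u'.length + k2 < 2 ^ (a + 1) * (N.length / 2 + 1) := by omega
            simp only [P2, N', List.length_replicate, List.length_cons]
            exact h9
          · rw [hPms]
            have := hmeas k2 hl2
            omega
          · exact ⟨k2, by simp [P2], e, p3, h2⟩

/-! ### Linear space -/

section Linear

variable [Finite B] [Enc B]

theorem lin_ms : Lin (ms : Ins B → List Bool) :=
  (Lin.flatMap (Lin.fst.comp (Lin.snd.comp Lin.snd))
    ((Lin.const true).cons Lin.id)).append (Lin.snd.comp (Lin.snd.comp Lin.snd))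

theorem lin_base : Lin (base : Ins B → Bool) :=
  Lin.isEmpty (Lin.fst.comp (Lin.snd.comp Lin.snd))

theorem lin_bval {Db : List B → Bool} (hDb : Lin Db) : Lin (bval Db) := by
  classical
  refine ((Lin.snd.comp Lin.fst).ite (hDb.comp (Lin.fst.comp (Lin.fst.comp Lin.fst)))
    (Lin.eq (Lin.fst.comp (Lin.fst.comp Lin.fst))
      (Lin.snd.comp (Lin.fst.comp Lin.fst)))).of_eq fun x => ?_
  unfold bval
  congr

theorem lin_mu : Lin (mu : Ins B × Gue B → List B) :=
  lin_dec (Lin.fst.comp (Lin.fst.comp Lin.snd))
    (Lin.fst.comp (Lin.fst.comp (Lin.fst.comp Lin.fst)))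

theorem lin_mu' : Lin (mu' : Ins B × Gue B → List B) :=
  lin_dec (Lin.snd.comp (Lin.fst.comp Lin.snd)) lin_mu

theorem lin_chk {Rb : List B × List B → Bool} (hRb : Lin Rb) : Lin (chk Rb) := by
  have hV : Lin (fun p : Ins B × Gue B => p.1.2.2.1) :=
    Lin.fst.comp (Lin.snd.comp (Lin.snd.comp Lin.fst))
  have hP1 : Lin (fun p : Ins B × Gue B => p.2.2.1) := Lin.fst.comp (Lin.snd.comp Lin.snd)
  have hP2 : Lin (fun p : Ins B × Gue B => p.2.2.2.1) :=
    Lin.fst.comp (Lin.snd.comp (Lin.snd.comp Lin.snd))
  have hs2 : Lin (fun p : Ins B × Gue B => p.2.1.2) := Lin.snd.comp (Lin.fst.comp Lin.snd)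
  exact ((Lin.lenLe (Lin.rep hP1 2) hV).and (Lin.lenLe (Lin.rep hP2 2) hV)).and
    ((Lin.lenLe ((Lin.map' hP1 (Lin.const false)).append
      ((Lin.map' hs2 (Lin.const false)).append (Lin.map' hP2 (Lin.const false)))) hV).and
      ((Lin.isEmpty hs2).or (hRb.comp (lin_mu.pair lin_mu'))))

theorem lin_ch : Lin (ch : (Ins B × Gue B) × Bool → Ins B) := by
  have hi : Lin (fun p : (Ins B × Gue B) × Bool => p.1.1) := Lin.fst.comp Lin.fst
  have hg : Lin (fun p : (Ins B × Gue B) × Bool => p.1.2) := Lin.snd.comp Lin.fst
  have hN : Lin (fun p : (Ins B × Gue B) × Bool => p.1.2.2.2.2) :=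
    Lin.snd.comp (Lin.snd.comp (Lin.snd.comp hg))
  have hA : Lin (fun p : (Ins B × Gue B) × Bool => true :: p.1.1.2.1) :=
    (Lin.const true).cons (Lin.fst.comp (Lin.snd.comp hi))
  exact Lin.snd.ite
    ((((lin_mu'.comp Lin.fst).pair (Lin.snd.comp (Lin.fst.comp (Lin.fst.comp hi)))).pair
      (Lin.snd.comp (Lin.fst.comp hi))).pair (hA.pair
        ((Lin.fst.comp (Lin.snd.comp (Lin.snd.comp hg))).pair hN)))
    ((((Lin.fst.comp (Lin.fst.comp (Lin.fst.comp hi))).pair (lin_mu.comp Lin.fst)).pair
      (Lin.const false)).pair (hA.pair ((Lin.fst.comp (Lin.snd.comp hg)).pair hN)))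

theorem base_false {x : Ins B} (h : base x = false) : 1 ≤ (ms x).length := by
  rw [ms_length]
  rw [base, List.isEmpty_eq_false_iff] at h
  cases hx : x.2.2.1 with
  | nil => exact absurd hx h
  | cons i l => simp only [List.map_cons, List.sum_cons]; omega

/-- The first instance. -/
def xinit {A : Type} (ι : A → B) (K : ℕ) (w : List A) : Ins B :=
  (((w.map ι, []), true), ([true], (rep K (w.map fun _ => [true]) ++ List.replicate K [true],
    (w.map fun _ => true) ++ ((rep K (w.map fun _ => [true]) ++
      List.replicate K [true]).map fun _ => true))))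

/-- The main theorem. -/
theorem lin_var {A : Type} [Finite A] [Enc A] (ι : A → B) {Rb : List B × List B → Bool}
    {Db : List B → Bool} (hRb : Lin Rb) (hDb : Lin Db) (K : ℕ)
    (hR : ∀ u v, Rb (u, v) = true ↔ R u v) {f : List A → Bool}
    (hf : ∀ w, f w = true ↔ ∃ k ≤ K * w.length + K, ∃ e, Pth R k (w.map ι) e ∧ Db e = true) :
    Lin f := by
  obtain ⟨D1, hD1⟩ := exists_sz_le B
  obtain ⟨D2, hD2⟩ := exists_sz_le (Option B)
  set D := D1 + D2 with hDdef
  have hD : ∀ b : B, sz b ≤ D := fun b => (hD1 b).trans (by omega)
  have hD' : ∀ b : Option B, sz b ≤ D := fun b => (hD2 b).trans (by omega)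
  have hι : Lin ι := Lin.of_finite ι
  have hV0 : Lin (fun w : List A => rep K (w.map fun _ => [true]) ++
      List.replicate K [true]) :=
    (Lin.rep (Lin.map' Lin.id (Lin.const [true])) K).append (Lin.const _)
  have hx0 : Lin (xinit ι K) :=
    (((Lin.map' Lin.id hι).pair (Lin.const [])).pair (Lin.const true)).pair
      ((Lin.const [true]).pair (hV0.pair ((Lin.map' Lin.id (Lin.const true)).append
        (Lin.map' hV0 (Lin.const true)))))
  refine lin_rec (C := 2 * D + 40) (K := 2 * D + 17) lin_base (lin_bval hDb) lin_ms
    (lin_chk hRb) lin_ch (fun x hx => base_false hx) hx0 fun w => ?_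
  rw [hf]
  have hVl : (rep K (w.map fun _ => [true]) ++ List.replicate K [true]).length =
      K * w.length + K := by
    rw [List.length_append, rep_length, List.length_map, List.length_replicate]
  constructor
  · rintro ⟨k, hk, e, h1, h2⟩
    set x := xinit ι K w with hx
    have hVx : x.2.2.1.length = K * w.length + K := hVl
    have hNx : x.2.2.2.length = w.length + (K * w.length + K) := by
      show ((w.map fun _ => true) ++ ((rep K (w.map fun _ => [true]) ++
        List.replicate K [true]).map fun _ => true)).length = _
      rw [List.length_append, List.length_map, List.length_map, hVl]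
    have hvx : x.1.1.1.length = w.length := by
      show (w.map ι).length = _
      rw [List.length_map]
    have hAx : x.2.1.length = 1 := rfl
    have hmem : ∀ i ∈ x.2.2.1, i.length = x.2.1.length := by
      intro i hi
      have hi' : i ∈ rep K (w.map fun _ => [true]) ++ List.replicate K [true] := hi
      have hrep : ∀ n, i ∈ rep n (w.map fun _ => [true]) → i = [true] := by
        intro n
        induction n with
        | zero => intro h; simp [rep] at h
        | succ n ihn =>
          intro h
          rw [rep, List.mem_append] at h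
          rcases h with h | h
          · obtain ⟨_, _, h⟩ := List.mem_map.1 h
            exact h.symm
          · exact ihn h
      rcases List.mem_append.1 hi' with h | h
      · rw [hrep K h]; rfl
      · rw [List.eq_of_mem_replicate h]; rfl
    have hmsx : (ms x).length = 2 * x.2.2.1.length + x.2.2.2.length := by
      rw [ms_length]
      congr 1
      have : (x.2.2.1.map fun i => i.length + 1) = List.replicate x.2.2.1.length 2 := by
        rw [List.eq_replicate_iff]
        refine ⟨by simp, fun b hb => ?_⟩
        obtain ⟨i, hi, rfl⟩ := List.mem_map.1 hb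
        rw [hmem i hi, hAx]
      rw [this, List.sum_replicate, smul_eq_mul, Nat.mul_comm]
    have hszx : sz x = ((sz x.1.1.1 + sz x.1.1.2 + 1) + sz x.1.2 + 1) +
        (sz x.2.1 + (sz x.2.2.1 + sz x.2.2.2 + 1) + 1) + 1 := by
      simp only [← sz_pair]
    have hszV : 2 * x.2.2.1.length ≤ sz x.2.2.1 := by
      have : ∀ l : List (List Bool), 2 * l.length ≤ sz l := by
        intro l
        induction l with
        | nil => simp [sz_nil]
        | cons i l ih =>
          rw [sz_cons, List.length_cons]
          have := sz_pos i
          omega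
      exact this _
    have hszN := length_le_sz x.2.2.2
    have hszv := length_le_sz x.1.1.1
    refine complete (M := sz x) (fun u v h => (hR u v).2 h) hD hD' ?_ (x.2.2.1.length) x
      (le_refl _) ?_ ?_ ?_ hmem (by rw [hAx]) ?_ ?_ ?_
    · have : (2 * D + 16) * sz x ≤ (2 * D + 17) * sz x := Nat.mul_le_mul_right _ (by omega)
      omega
    · omega
    · show ([] : List B).length ≤ _
      simp
    · omega
    · rw [hAx, hvx, hVx, hNx]; omega
    · omega
    · refine ⟨k, by omega, e, h1, ?_⟩
      show Tg Db x e
      unfold Tg
      rw [if_pos (show x.1.2 = true from rfl)]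
      exact h2
  · intro h
    obtain ⟨k, hk, e, h1, h2⟩ := sound (R := R) (fun u v h => (hR u v).1 h) h
    refine ⟨k, ?_, e, h1, ?_⟩
    · have : (xinit ι K w).2.2.1.length = K * w.length + K := hVl
      omega
    · unfold Tg at h2
      rw [if_pos (show (xinit ι K w).1.2 = true from rfl)] at h2
      exact h2

end Linear

end Pool.Agent.Lib.LinSpace.Var
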