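import Pool.Agent.Lib.LinSpace.Recall
import Pool.Agent.Lib.LinSpace.Var.Edits

/-!
Edits of words, and scripts: short descriptions of words which arise from a given word by few
edits.
-/

set_option autoImplicit false
set_option linter.unusedSimpArgs false
set_option linter.unusedSectionVars false

namespace Pool.Agent.Lib.LinSpace.Var

variable {B : Type}

/-! ### Edits -/

theorem Edits.trans {c d : ℕ} {u v w : List B} (h : Edits c u v) (h' : Edits d v w) :
    Edits (c + d) u w := by
  induction h' with
  | refl _ => exact h
  | step _ e ih => exact .step (ih h) e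

theorem Edit.length_le {u v : List B} (h : Edit u v) : v.length ≤ u.length + 1 := by
  obtain ⟨x, a, b, y, rfl, rfl, _, hb⟩ := h
  simp only [List.length_append]
  omega

theorem Edits.length_le {c : ℕ} {u v : List B} (h : Edits c u v) :
    v.length ≤ u.length + c := by
  induction h with
  | refl _ => omega
  | step _ e ih => have := e.length_le; omega

theorem Edits.zero {u v : List B} (h : Edits 0 u v) : u = v := by
  cases h with
  | refl => rfl

/-! ### Alignments -/

/-- Alignments of words. -/
abbrev Al (B : Type) := List (Option B × Option B)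

open Classical in
/-- The number of proper columns. -/
noncomputable def cost (al : Al B) : ℕ := al.countP fun p => decide (p.1 ≠ p.2)

theorem cost_append (l l' : Al B) : cost (l ++ l') = cost l + cost l' := by
  classical
  simp [cost]

theorem cost_cons_le (p : Option B × Option B) (l : Al B) : cost (p :: l) ≤ cost l + 1 := by
  classical
  rw [cost, cost, List.countP_cons]
  split <;> omega

theorem le_cost_cons (p : Option B × Option B) (l : Al B) : cost l ≤ cost (p :: l) := by
  classical
  rw [cost, cost, List.countP_cons]
  omega

theorem exists_al {c : ℕ} {u v : List B} (h : Edits c u v) : ∃ al : Al B,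
    al.filterMap Prod.fst = u ∧ al.filterMap Prod.snd = v ∧ cost al ≤ c := by
  classical
  induction h with
  | refl u =>
    refine ⟨u.map fun b => (some b, some b), ?_, ?_, ?_⟩
    · induction u with
      | nil => rfl
      | cons a u ih => simp
    · induction u with
      | nil => rfl
      | cons a u ih => simp
    · rw [cost, List.countP_map]
      simp [Function.comp_def]
  | @step c u v w _ e ih =>
    obtain ⟨al, h1, h2, h3⟩ := ih
    obtain ⟨x, a, b, y, rfl, rfl, ha, hb⟩ := e
    rw [List.append_assoc, List.filterMap_eq_append_iff] at h2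
    obtain ⟨al1, al2, rfl, h4, h5⟩ := h2
    rw [cost_append] at h3
    rw [List.filterMap_append] at h1
    match a, ha with
    | [], _ =>
      refine ⟨al1 ++ (b.map fun q => ((none, some q) : Option B × Option B)) ++ al2, ?_, ?_, ?_⟩
      · rw [List.filterMap_append, List.filterMap_append, ← h1]
        have : (b.map fun q => ((none, some q) : Option B × Option B)).filterMap Prod.fst =
            [] := by
          rw [List.filterMap_eq_nil_iff]
          intro p hp
          obtain ⟨q, _, rfl⟩ := List.mem_map.1 hp
          rfl
        rw [this, List.append_nil]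
      · rw [List.filterMap_append, List.filterMap_append, h4, h5]
        have : (b.map fun q => ((none, some q) : Option B × Option B)).filterMap Prod.snd =
            b := by
          rw [List.filterMap_map]
          exact List.filterMap_some
        rw [this, List.nil_append]
      · rw [cost_append, cost_append]
        have : cost (b.map fun q => ((none, some q) : Option B × Option B)) ≤ b.length := by
          rw [cost]
          exact List.countP_le_length.trans (by simp)
        omega
    | [p], _ =>
      rw [List.singleton_append, List.filterMap_eq_cons_iff] at h5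
      obtain ⟨l1, col, l2, rfl, g1, g2, g3⟩ := h5
      have hl1 : l1.filterMap Prod.snd = [] := by
        rw [List.filterMap_eq_nil_iff]
        exact g1
      refine ⟨al1 ++ l1 ++ (col.1, b.head?) :: l2, ?_, ?_, ?_⟩
      · rw [← h1]
        simp only [List.filterMap_append, List.filterMap_cons, List.append_assoc]
      · rw [List.filterMap_append, List.filterMap_append, h4, hl1, List.filterMap_cons, g3]
        match b, hb with
        | [], _ => simp
        | [q], _ => simp
      · have e1 := cost_cons_le (col.1, b.head?) l2
        have e2 := le_cost_cons col l2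
        rw [cost_append, cost_append]
        rw [cost_append] at h3
        omega

/-! ### Scripts -/

/-- Instructions: the number of letters to be copied, encoded by a pair of words; whether a letter
is deleted; the letter to be inserted, if any. -/
abbrev Op (B : Type) := (List Bool × List Bool) × (Bool × Option B)

/-- Lists of instructions. -/
abbrev Script (B : Type) := List (Op B)

/-- States of the decoder: the word written so far (reversed), the rest of the source, the rest
of the script. -/
abbrev Sst (B : Type) := List B × (List B × Script B)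

/-- The default instruction. -/
def dop : Op B := (([], []), (false, none))

/-- The code of the number `q * 2 ^ a + r`. -/
def code' (a q r : ℕ) : List Bool × List Bool := (List.replicate q true, bits a (2 ^ a - 1 - r))

variable [Nonempty B]

/-- One step of the decoder. -/
noncomputable def stp (t : Sst B) : Sst B :=
  if t.2.2.isEmpty then t
  else
    if (t.2.2.headD dop).1.2.all id && (t.2.2.headD dop).1.1.isEmpty then
      ((t.2.2.headD dop).2.2.toList ++ t.1,
        (if (t.2.2.headD dop).2.1 then t.2.1.tail else t.2.1, t.2.2.tail))
    else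
      if t.2.1.isEmpty then (t.1, (t.2.1, []))
      else (t.2.1.headD (Classical.arbitrary B) :: t.1, (t.2.1.tail,
        ((if (t.2.2.headD dop).1.2.all id then (t.2.2.headD dop).1.1.tail
          else (t.2.2.headD dop).1.1, incr (t.2.2.headD dop).1.2), (t.2.2.headD dop).2) ::
            t.2.2.tail))

/-- The word described by the script `s` over the word `v`. -/
noncomputable def dec (s : Script B) (v : List B) : List B :=
  (stp^[s.length + v.length] ([], (v, s))).1.reverse ++
    (stp^[s.length + v.length] ([], (v, s))).2.1

theorem stp_nil (o r : List B) : stp (o, (r, [])) = (o, (r, [])) := by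
  simp [stp]

theorem stp_iterate_nil (o r : List B) (n : ℕ) : stp^[n] (o, (r, [])) = (o, (r, [])) := by
  induction n with
  | zero => rfl
  | succ n ih => rw [Function.iterate_succ_apply, stp_nil, ih]

theorem dec_nil (v : List B) : dec [] v = v := by
  rw [dec, stp_iterate_nil]
  simp

theorem bits_two_pow (a : ℕ) : bits a (2 ^ a) = bits a 0 := by
  induction a with
  | zero => rfl
  | succ n ih =>
    have e1 : 2 ^ (n + 1) % 2 = 0 := by rw [Nat.pow_succ]; omega
    have e2 : 2 ^ (n + 1) / 2 = 2 ^ n := by rw [Nat.pow_succ]; omega
    rw [bits, bits, e1, e2, ih]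

theorem stp_copy {a q r : ℕ} (hr : r < 2 ^ a) (b : B) (p : List B)
    (hp : (b :: p).length = q * 2 ^ a + r) (out rest : List B) (e : Bool × Option B)
    (s : Script B) : ∃ q' r', r' < 2 ^ a ∧ p.length = q' * 2 ^ a + r' ∧
      stp (out, (b :: p ++ rest, (code' a q r, e) :: s)) =
        (b :: out, (p ++ rest, (code' a q' r', e) :: s)) := by
  rw [List.length_cons] at hp
  rcases r with _ | r
  · rcases q with _ | q
    · simp at hp
    · refine ⟨q, 2 ^ a - 1, by omega, ?_, ?_⟩
      · rw [Nat.add_mul] at hp; omega
      · have h1 : (bits a (2 ^ a - 1)).all id = true := (bits_all _ _ (by omega)).2 (by omega)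
        have h2 : incr (bits a (2 ^ a - 1)) = bits a 0 := by
          rw [incr_bits, show 2 ^ a - 1 + 1 = 2 ^ a by omega, bits_two_pow]
        simp [stp, code', h1, h2]
  · refine ⟨q, r, by omega, by omega, ?_⟩
    have h1 : ¬ (bits a (2 ^ a - 1 - (r + 1))).all id = true := by
      rw [bits_all _ _ (by omega)]; omega
    have h1' : (bits a (2 ^ a - 1 - (r + 1))).all id = false := by simpa using h1
    have h2 : incr (bits a (2 ^ a - 1 - (r + 1))) = bits a (2 ^ a - 1 - r) := by
      rw [incr_bits]; congr 1; omega
    simp only [stp, code', List.isEmpty_cons, Bool.false_eq_true, if_false, List.headD_cons,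
      h1', Bool.false_and, List.cons_append, List.tail_cons, h2]

theorem stp_copies {a : ℕ} (e : Bool × Option B) (s : Script B) (rest : List B) (p : List B) :
    ∀ (q r : ℕ) (out : List B), r < 2 ^ a → p.length = q * 2 ^ a + r →
      stp^[p.length] (out, (p ++ rest, (code' a q r, e) :: s)) =
        (p.reverse ++ out, (rest, (code' a 0 0, e) :: s)) := by
  induction p with
  | nil =>
    intro q r out _ h
    rw [List.length_nil] at h
    have h1 : r = 0 := by omega
    have h2 : q * 2 ^ a = 0 := by omega
    have h3 : q = 0 := by
      rcases Nat.mul_eq_zero.1 h2 with h | h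
      · exact h
      · have := Nat.two_pow_pos a; omega
    subst h1 h3
    rfl
  | cons b p ih =>
    intro q r out hr h
    obtain ⟨q', r', h1, h2, h3⟩ := stp_copy hr b p h out rest e s
    rw [List.length_cons, Function.iterate_succ_apply, h3, ih q' r' _ h1 h2]
    simp

theorem stp_op (a : ℕ) (out rest : List B) (d : Bool) (o : Option B) (s : Script B) :
    stp (out, (rest, (code' a 0 0, (d, o)) :: s)) =
      (o.toList ++ out, (if d then rest.tail else rest, s)) := by
  have h1 : (bits a (2 ^ a - 1)).all id = true :=
    (bits_all _ _ (by have := Nat.two_pow_pos a; omega)).2 (by have := Nat.two_pow_pos a; omega)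
  simp [stp, code', h1]

open Classical in
/-- The script of an alignment, after `g` copied letters. -/
noncomputable def conv (a : ℕ) : ℕ → Al B → Script B
  | _, [] => []
  | g, p :: al => if p.1 = p.2 then conv a (g + p.1.toList.length) al
      else (code' a (g / 2 ^ a) (g % 2 ^ a), (p.1.isSome, p.2)) :: conv a 0 al

theorem filterMap_cons' {γ : Type} (f : γ → Option B) (x : γ) (l : List γ) :
    (x :: l).filterMap f = (f x).toList ++ l.filterMap f := by
  rw [List.filterMap_cons]
  cases f x <;> rfl

theorem run_conv (a : ℕ) (al : Al B) : ∀ (g : ℕ) (p out : List B), p.length = g →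
    ∃ n ≤ (conv a g al).length + (p ++ al.filterMap Prod.fst).length, ∃ out' rest',
      stp^[n] (out, (p ++ al.filterMap Prod.fst, conv a g al)) = (out', (rest', [])) ∧
      out'.reverse ++ rest' = out.reverse ++ p ++ al.filterMap Prod.snd := by
  induction al with
  | nil =>
    intro g p out _
    refine ⟨0, by omega, out, p, ?_, by simp⟩
    simp [conv]
  | cons c al ih =>
    intro g p out hp
    rw [filterMap_cons', filterMap_cons', conv]
    by_cases hc : c.1 = c.2
    · rw [if_pos hc]
      obtain ⟨n, hn, out', rest', h1, h2⟩ := ih (g + c.1.toList.length) (p ++ c.1.toList) out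
        (by rw [List.length_append, hp])
      refine ⟨n, ?_, out', rest', ?_, ?_⟩
      · rw [← List.append_assoc]; exact hn
      · rw [← List.append_assoc]; exact h1
      · rw [h2, ← hc]; simp
    · rw [if_neg hc]
      obtain ⟨n, hn, out', rest', h1, h2⟩ := ih 0 [] (c.2.toList ++ (p.reverse ++ out)) rfl
      refine ⟨n + 1 + p.length, ?_, out', rest', ?_, ?_⟩
      · rw [List.nil_append] at hn
        simp only [List.length_cons, List.length_append]
        omega
      · have hg : p.length = g / 2 ^ a * 2 ^ a + g % 2 ^ a := by
          rw [hp]; exact (Nat.div_add_mod' g (2 ^ a)).symm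
        rw [Function.iterate_add_apply, stp_copies _ _ _ p _ _ out
          (Nat.mod_lt _ (Nat.two_pow_pos a)) hg, Function.iterate_succ_apply, stp_op]
        rw [List.nil_append] at h1
        rw [← h1]
        congr 2
        rcases c with ⟨_ | b, c2⟩
        · simp
        · simp
      · rw [h2]
        rcases c with ⟨c1, _ | b⟩
        · simp
        · simp

theorem dec_conv (a : ℕ) (al : Al B) :
    dec (conv a 0 al) (al.filterMap Prod.fst) = al.filterMap Prod.snd := by
  obtain ⟨n, hn, out', rest', h1, h2⟩ := run_conv a al 0 [] [] rfl
  rw [List.nil_append] at hn h1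
  rw [dec, show (conv a 0 al).length + (al.filterMap Prod.fst).length =
    ((conv a 0 al).length + (al.filterMap Prod.fst).length - n) + n by omega,
    Function.iterate_add_apply, h1, stp_iterate_nil, h2]
  simp

theorem length_conv (a : ℕ) (al : Al B) : ∀ g, (conv a g al).length ≤ cost al := by
  classical
  induction al with
  | nil => intro g; simp [conv]
  | cons c al ih =>
    intro g
    rw [conv]
    by_cases hc : c.1 = c.2
    · rw [if_pos hc]
      exact (ih _).trans (le_cost_cons _ _)
    · rw [if_neg hc, List.length_cons, cost, List.countP_cons]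
      have := ih 0
      rw [cost] at this
      simp only [ne_eq, hc, not_false_eq_true, decide_true, if_true] at this ⊢
      omega

/-- The number of blocks copied by a script. -/
def wt (s : Script B) : ℕ := (s.map fun op => op.1.1.length).sum

theorem wt_conv (a : ℕ) (al : Al B) : ∀ g,
    wt (conv a g al) * 2 ^ a ≤ g + (al.filterMap Prod.fst).length := by
  classical
  induction al with
  | nil => intro g; simp [conv, wt]
  | cons c al ih =>
    intro g
    rw [conv, filterMap_cons', List.length_append]
    by_cases hc : c.1 = c.2
    · rw [if_pos hc]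
      have := ih (g + c.1.toList.length)
      omega
    · rw [if_neg hc, wt, List.map_cons, List.sum_cons, Nat.add_mul]
      have h1 := ih 0
      rw [wt] at h1
      have h2 : (code' a (g / 2 ^ a) (g % 2 ^ a)).1.length * 2 ^ a ≤ g := by
        rw [code']
        simp only [List.length_replicate]
        exact Nat.div_mul_le_self g (2 ^ a)
      simp only at h2 ⊢
      omega

theorem mem_conv (a : ℕ) (al : Al B) : ∀ g, ∀ op ∈ conv a g al, op.1.2.length = a := by
  classical
  induction al with
  | nil => intro g op h; simp [conv] at h
  | cons c al ih =>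
    intro g op h
    rw [conv] at h
    by_cases hc : c.1 = c.2
    · rw [if_pos hc] at h
      exact ih _ op h
    · rw [if_neg hc] at h
      rcases List.mem_cons.1 h with h | h
      · rw [h]; exact bits_length _ _
      · exact ih _ op h

/-! ### Decoding does not need more edits -/

theorem stp_edit (t : Sst B) : (stp t).1.reverse ++ (stp t).2.1 = t.1.reverse ++ t.2.1 ∧
      (stp t).2.2.length ≤ t.2.2.length ∨
    Edit (t.1.reverse ++ t.2.1) ((stp t).1.reverse ++ (stp t).2.1) ∧
      (stp t).2.2.length + 1 ≤ t.2.2.length := by
  obtain ⟨o, r, s⟩ := t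
  cases s with
  | nil => left; rw [stp_nil]; exact ⟨rfl, le_refl _⟩
  | cons op s =>
    by_cases h : (op.1.2.all id && op.1.1.isEmpty) = true
    · right
      simp only [stp, List.isEmpty_cons, Bool.false_eq_true, if_false, List.headD_cons, h,
        if_true, List.tail_cons, List.length_cons, le_refl, and_true]
      refine ⟨o.reverse, if op.2.1 then r.head?.toList else [], op.2.2.toList,
        if op.2.1 then r.tail else r, ?_, ?_, ?_, ?_⟩
      · rw [List.append_assoc]
        congr 1
        cases op.2.1 with
        | false => simp
        | true => cases r <;> simp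
      · rw [List.reverse_append]
        cases op.2.2 <;> simp
      · cases op.2.1 with
        | false => simp
        | true => cases r <;> simp
      · cases op.2.2 <;> simp
    · left
      cases r with
      | nil =>
        simp only [stp, List.isEmpty_cons, Bool.false_eq_true, if_false, List.headD_cons, h,
          List.isEmpty_nil, if_true, List.length_nil]
        exact ⟨trivial, by omega⟩
      | cons b r =>
        simp only [stp, List.isEmpty_cons, Bool.false_eq_true, if_false, List.headD_cons, h,
          List.tail_cons, List.length_cons, le_refl, and_true, List.reverse_cons,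
          List.append_assoc, List.singleton_append]

theorem iterate_edits (s : Script B) (v : List B) (n : ℕ) : ∃ c,
    Edits c v ((stp^[n] ([], (v, s))).1.reverse ++ (stp^[n] ([], (v, s))).2.1) ∧
      c + (stp^[n] ([], (v, s))).2.2.length ≤ s.length := by
  induction n with
  | zero => exact ⟨0, by simpa using Edits.refl v, by simp⟩
  | succ n ih =>
    obtain ⟨c, h1, h2⟩ := ih
    rw [Function.iterate_succ_apply']
    rcases stp_edit (stp^[n] ([], (v, s))) with ⟨h3, h4⟩ | ⟨h3, h4⟩
    · exact ⟨c, by rw [h3]; exact h1, by omega⟩
    · exact ⟨c + 1, .step h1 h3, by omega⟩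

theorem dec_edits (s : Script B) (v : List B) : ∃ c ≤ s.length, Edits c v (dec s v) := by
  obtain ⟨c, h1, h2⟩ := iterate_edits s v (s.length + v.length)
  exact ⟨c, by omega, h1⟩

/-! ### Linear space -/

noncomputable instance encOpt {B : Type} [Finite B] : Enc (Option B) := encFinite _
noncomputable instance rdOpt {B : Type} [Finite B] : Rd (Option B) := rdFinite _

variable [Finite B] [Enc B] {α : Type} [Enc α]

theorem lin_stp : Lin (stp : Sst B → Sst B) := by
  have hs : Lin (fun t : Sst B => t.2.2) := Lin.snd.comp Lin.snd
  have hr : Lin (fun t : Sst B => t.2.1) := Lin.fst.comp Lin.snd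
  have hh : Lin (fun t : Sst B => t.2.2.headD dop) := hs.headD _
  have hw : Lin (fun t : Sst B => (t.2.2.headD dop).1.2) := Lin.snd.comp (Lin.fst.comp hh)
  have hQ : Lin (fun t : Sst B => (t.2.2.headD dop).1.1) := Lin.fst.comp (Lin.fst.comp hh)
  have he : Lin (fun t : Sst B => (t.2.2.headD dop).2) := Lin.snd.comp hh
  have hl : Lin (fun o : Option B => o.toList) := Lin.of_finite _
  exact (Lin.isEmpty hs).ite Lin.id (((Lin.all hw).and (Lin.isEmpty hQ)).ite
    (((hl.comp (Lin.snd.comp he)).append Lin.fst).pair
      (((Lin.fst.comp he).ite hr.tail hr).pair hs.tail))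
    ((Lin.isEmpty hr).ite (Lin.fst.pair (hr.pair (Lin.const [])))
      (((hr.headD _).cons Lin.fst).pair (hr.tail.pair
        ((((((Lin.all hw).ite hQ.tail hQ).pair (Lin.incr hw)).pair he).cons hs.tail))))))

theorem incr_length (w : List Bool) : (incr w).length = w.length := by
  induction w with
  | nil => rfl
  | cons b w ih => cases b <;> simp [incr, ih]

/-- Bounds for the states of the decoder. -/
theorem stp_inv (s : Script B) (v : List B) (n : ℕ) :
    (stp^[n] ([], (v, s))).1.length + (stp^[n] ([], (v, s))).2.1.length +
      (stp^[n] ([], (v, s))).2.2.length ≤ v.length + s.length ∧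
    ((stp^[n] ([], (v, s))).2.2 = [] ∨ ∃ Q w e s', ((Q, w), e) :: s' <:+ s ∧
      ∃ Q' w', (stp^[n] ([], (v, s))).2.2 = ((Q', w'), e) :: s' ∧ Q' <:+ Q ∧
        w'.length = w.length) := by
  induction n with
  | zero =>
    refine ⟨by simp, ?_⟩
    cases s with
    | nil => left; rfl
    | cons op s =>
      right
      exact ⟨op.1.1, op.1.2, op.2, s, List.suffix_refl _, op.1.1, op.1.2, rfl,
        List.suffix_refl _, rfl⟩
  | succ n ih =>
    rw [Function.iterate_succ_apply']
    generalize stp^[n] ([], (v, s)) = t at ih
    obtain ⟨h1, h2⟩ := ih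
    obtain ⟨o, r, s1⟩ := t
    simp only at h1 h2
    rcases h2 with rfl | ⟨Q, w, e, s', h3, Q', w', rfl, h4, h5⟩
    · rw [stp_nil]
      exact ⟨h1, Or.inl rfl⟩
    · have hs' : s' <:+ s := (List.suffix_cons _ _).trans h3
      by_cases h : (w'.all id && Q'.isEmpty) = true
      · have hst : stp (o, (r, ((Q', w'), e) :: s')) =
            (e.2.toList ++ o, (if e.1 then r.tail else r, s')) := by
          simp only [stp, List.isEmpty_cons, Bool.false_eq_true, if_false, List.headD_cons, h,
            if_true, List.tail_cons]
        rw [hst]
        refine ⟨?_, ?_⟩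
        · have e1 : e.2.toList.length ≤ 1 := by cases e.2 <;> simp
          have e2 : (if e.1 then r.tail else r).length ≤ r.length := by
            split
            · rw [List.length_tail]; omega
            · exact le_refl _
          simp only [List.length_append, List.length_cons] at h1 ⊢
          omega
        · cases s' with
          | nil => left; rfl
          | cons op s' =>
            right
            exact ⟨op.1.1, op.1.2, op.2, s', hs', op.1.1, op.1.2, rfl, List.suffix_refl _, rfl⟩
      · cases r with
        | nil =>
          have hst : stp (o, (([] : List B), ((Q', w'), e) :: s')) = (o, ([], [])) := by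
            simp only [stp, List.isEmpty_cons, Bool.false_eq_true, if_false, List.headD_cons, h,
              List.isEmpty_nil, if_true]
          rw [hst]
          refine ⟨?_, Or.inl rfl⟩
          simp only [List.length_nil, List.length_cons] at h1 ⊢
          omega
        | cons b r =>
          have hst : stp (o, (b :: r, ((Q', w'), e) :: s')) = (b :: o, (r,
              ((if w'.all id then Q'.tail else Q', incr w'), e) :: s')) := by
            simp only [stp, List.isEmpty_cons, Bool.false_eq_true, if_false, List.headD_cons, h,
              List.tail_cons]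
          rw [hst]
          refine ⟨?_, Or.inr ⟨Q, w, e, s', h3, _, _, rfl, ?_, ?_⟩⟩
          · simp only [List.length_cons] at h1 ⊢
            omega
          · split
            · exact (List.tail_suffix _).trans h4
            · exact h4
          · rw [incr_length, h5]

theorem foldl_iterate {σ γ : Type} (f : σ → σ) (l : List γ) (t : σ) :
    l.foldl (fun t _ => f t) t = f^[l.length] t := by
  induction l generalizing t with
  | nil => rfl
  | cons a l ih => rw [List.foldl_cons, ih, List.length_cons, Function.iterate_succ_apply]

theorem exists_sz_le (γ : Type) [Finite γ] [Enc γ] : ∃ D, ∀ a : γ, sz a ≤ D := by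
  obtain ⟨D, hD⟩ := (Set.finite_range fun a : γ => sz a).bddAbove
  exact ⟨D, fun a => hD ⟨a, rfl⟩⟩

theorem sz_list_le {γ : Type} [Enc γ] {D : ℕ} (l : List γ) (hD : ∀ a ∈ l, sz a ≤ D) :
    sz l ≤ (D + 1) * l.length + 1 := by
  induction l with
  | nil => simp [sz_nil]
  | cons a l ih =>
    have h1 := hD a (List.mem_cons_self ..)
    have h2 := ih fun b hb => hD b (List.mem_cons_of_mem _ hb)
    rw [sz_cons, List.length_cons, Nat.mul_add]
    omega

theorem sz_stp_le {D : ℕ} (hD : ∀ b : B, sz b ≤ D) (s : Script B) (v : List B) (n : ℕ) :
    sz (stp^[n] ([], (v, s))) ≤ 2 * ((D + 1) * (sz v + sz s) + 1) + (4 * sz s + 4) + 2 := by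
  obtain ⟨h1, h2⟩ := stp_inv s v n
  set t := stp^[n] ([], (v, s)) with ht
  have hv := (length_le_sz v).le
  have hs := (length_le_sz s).le
  have e1 := sz_list_le (D := D) t.1 fun a _ => hD a
  have e2 := sz_list_le (D := D) t.2.1 fun a _ => hD a
  have e3 : (D + 1) * t.1.length ≤ (D + 1) * (sz v + sz s) := Nat.mul_le_mul_left _ (by omega)
  have e4 : (D + 1) * t.2.1.length ≤ (D + 1) * (sz v + sz s) := Nat.mul_le_mul_left _ (by omega)
  have e5 : sz t.2.2 ≤ 4 * sz s + 4 := by
    rcases h2 with h | ⟨Q, w, e, s', h3, Q', w', h6, h4, h5⟩
    · rw [h, sz_nil]; omega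
    · have g1 := sz_suffix_le h3
      have g2 := sz_suffix_le h4
      have g3 := sz_word_bool w'
      have g4 := length_le_sz w
      rw [h6, sz_cons, sz_pair, sz_pair]
      rw [sz_cons, sz_pair, sz_pair] at g1
      omega
  have e6 : sz t = sz t.1 + (sz t.2.1 + sz t.2.2 + 1) + 1 := by
    rw [← sz_pair, ← sz_pair]
  rw [e6]
  omega

theorem lin_dec {s : α → Script B} {v : α → List B} (hs : Lin s) (hv : Lin v) :
    Lin (fun x => dec (s x) (v x)) := by
  obtain ⟨D, hD⟩ := exists_sz_le B
  have h := Lin.foldl (l := fun x : Script B × List B =>
      (x.1.map fun _ => false) ++ (x.2.map fun _ => false))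
    (s0 := fun x => (([], (x.2, x.1)) : Sst B)) (step := fun y => stp y.2.1)
    ((Lin.map' Lin.fst (Lin.const false)).append (Lin.map' Lin.snd (Lin.const false)))
    ((Lin.const []).pair (Lin.snd.pair Lin.fst)) (lin_stp.comp (Lin.fst.comp Lin.snd))
    (q := fun m => 2 * ((D + 1) * m + 1) + (4 * m + 4) + 2)
    ((((((LB.id.smul (D + 1)).add (LB.const 1)).smul 2).add ((LB.id.smul 4).add
      (LB.const 4)))).add (LB.const 2)) (by
      intro x l' _
      show sz (l'.foldl (fun t _ => stp t) ([], (x.2, x.1))) ≤ _
      rw [foldl_iterate]
      refine (sz_stp_le hD x.1 x.2 l'.length).trans ?_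
      obtain ⟨a, b⟩ := x
      rw [sz_pair]
      simp only
      have : (D + 1) * (sz b + sz a) ≤ (D + 1) * (sz a + sz b + 1) :=
        Nat.mul_le_mul_left _ (by omega)
      omega)
  have h2 : Lin (fun x : Script B × List B => dec x.1 x.2) := by
    have h3 : ∀ x : Script B × List B,
        ((x.1.map fun _ => false) ++ (x.2.map fun _ => false)).foldl
          (fun (t : Sst B) (_ : Bool) => stp t) ([], (x.2, x.1)) =
        stp^[x.1.length + x.2.length] ([], (x.2, x.1)) := by
      intro x
      rw [foldl_iterate]
      simp
    refine ((Lin.fst.comp h).reverse.append (Lin.fst.comp (Lin.snd.comp h))).of_eq fun x => ?_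
    have := h3 x
    rw [dec, ← this]
  exact h2.comp (hs.pair hv)

theorem sz_script_le {D a : ℕ} (hD : ∀ b : Option B, sz b ≤ D) (s : Script B)
    (h : ∀ op ∈ s, op.1.2.length = a) : sz s ≤ 4 * wt s + s.length * (4 * a + D + 9) + 1 := by
  induction s with
  | nil => simp [sz_nil, wt]
  | cons op s ih =>
    have h1 := ih fun o ho => h o (List.mem_cons_of_mem _ ho)
    have h2 := h op (List.mem_cons_self ..)
    obtain ⟨⟨Q, w⟩, ⟨d, o⟩⟩ := op
    simp only at h2
    have h3 := sz_word_bool Q
    have h4 := sz_word_bool w
    have h5 := sz_bool d
    have h6 := hD o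
    rw [sz_cons, sz_pair, sz_pair, sz_pair, List.length_cons, Nat.add_mul, wt, List.map_cons,
      List.sum_cons]
    rw [wt] at h1
    simp only
    omega

/-- Short scripts. -/
theorem exists_script {D : ℕ} (hD : ∀ b : Option B, sz b ≤ D) {c : ℕ} {u v : List B}
    (h : Edits c u v) (a N : ℕ) (hN : u.length < 2 ^ a * (N + 1)) : ∃ s : Script B,
      dec s u = v ∧ s.length ≤ c ∧ sz s ≤ 4 * N + c * (4 * a + D + 9) + 1 := by
  obtain ⟨al, rfl, rfl, h3⟩ := exists_al h
  have h4 := length_conv a al 0
  refine ⟨conv a 0 al, dec_conv a al, h4.trans h3, ?_⟩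
  have h5 := sz_script_le hD (conv a 0 al) (mem_conv a al 0)
  have h6 := wt_conv a al 0
  have h7 : wt (conv a 0 al) ≤ N := by
    by_contra hcon
    push Not at hcon
    have h8 : 2 ^ a * (N + 1) ≤ wt (conv a 0 al) * 2 ^ a := by
      rw [Nat.mul_comm (wt _)]
      exact Nat.mul_le_mul_left _ hcon
    omega
  have h8 : (conv a 0 al).length * (4 * a + D + 9) ≤ c * (4 * a + D + 9) :=
    Nat.mul_le_mul_right _ (h4.trans h3)
  omega

end Pool.Agent.Lib.LinSpace.Var
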